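import Pool.Graph.R_seed8.Y939.SC.Several

/-!
# Semicontinuity of the number of the forms through a collision, over the integers

The sections on translations and dimensions follow `Pool.Agent.H418.CO.Base` (helper418).
-/

set_option autoImplicit false

namespace Pool.Agent.H937.OG

open Polynomial Pool.Agent.H932R2 Pool.Agent.H932R3 Pool.Agent.TH545.CF

universe u v

/-- the space of forms of degree `d` with affine part in `J` -/
noncomputable def jforms {K : Type u} [Field K] (J : Ideal K[X][X]) (d : ℕ) :
    Submodule K (MvPolynomial (Fin 3) K) :=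
  MvPolynomial.homogeneousSubmodule (Fin 3) K d ⊓
    (Submodule.restrictScalars K J).comap (deh K).toLinearMap

section dimension

variable {K : Type u} [Field K]

theorem card_Tfin_choose (d : ℕ) : (Tfin d).card = (d + 2).choose 2 := by
  have h4 := card_Tfin d
  have h5 : (d + 2).choose 2 * 2 = (d + 2) * (d + 1) := by
    rw [Nat.choose_two_right, Nat.div_mul_cancel (Nat.even_mul_pred_self _).two_dvd]
    rfl
  linarith

instance finiteDimensional_mspan (d : ℕ) : FiniteDimensional K ↥(mspan K (Tset d)) := by
  rw [← coe_Tfin, mspan_eq_range]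
  exact FiniteDimensional.span_of_finite K (Set.finite_range _)

theorem finrank_mspan (d : ℕ) :
    Module.finrank K ↥(mspan K (Tset d)) = (d + 2).choose 2 := by
  rw [← card_Tfin_choose, ← coe_Tfin]
  have h1 : mspan K (↑(Tfin d) : Set (ℕ × ℕ)) = LinearMap.range (coordMap K (Tfin d)) := by
    ext f
    rw [mem_mspan_iff, LinearMap.mem_range]
  rw [h1, LinearMap.finrank_range_of_inj (coordMap_inj _), Module.finrank_fin_fun]

theorem finrank_jforms_eq (J : Ideal K[X][X]) (d : ℕ) :
    Module.finrank K ↥(jforms J d) =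
      Module.finrank K ↥(mspan K (Tset d) ⊓ Submodule.restrictScalars K J) :=
  finrank_forms _ _ fun _ _ => Iff.rfl

/-- more forms in a higher degree: at most the number of the new monomials -/
theorem jforms_grow {J : Ideal K[X][X]} {D d : ℕ} (hd : D ≤ d) :
    Module.finrank K ↥(jforms J d) + (D + 2).choose 2 ≤
      (d + 2).choose 2 + Module.finrank K ↥(jforms J D) := by
  rw [finrank_jforms_eq, finrank_jforms_eq, ← finrank_mspan (K := K) D, ← finrank_mspan (K := K) d]
  have h1 := Submodule.finrank_sup_add_finrank_inf_eq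
    (mspan K (Tset d) ⊓ Submodule.restrictScalars K J) (mspan K (Tset D))
  have h2 : (mspan K (Tset d) ⊓ Submodule.restrictScalars K J) ⊓ mspan K (Tset D) ≤
      mspan K (Tset D) ⊓ Submodule.restrictScalars K J := by
    rintro f ⟨⟨-, hf⟩, hf'⟩
    exact ⟨hf', hf⟩
  have h3 : Module.finrank K ↥((mspan K (Tset d) ⊓ Submodule.restrictScalars K J) ⊓
      mspan K (Tset D)) ≤ Module.finrank K ↥(mspan K (Tset D) ⊓ Submodule.restrictScalars K J) :=
    Submodule.finrank_mono h2
  have h4 : Module.finrank K ↥((mspan K (Tset d) ⊓ Submodule.restrictScalars K J) ⊔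
      mspan K (Tset D)) ≤ Module.finrank K ↥(mspan K (Tset d)) :=
    Submodule.finrank_mono (sup_le inf_le_left (mspan_mono (Tset_mono hd)))
  omega

end dimension

section rank

variable {K : Type u} [Field K]

/-- the matrix of the conditions -/
noncomputable def condM (r m d : ℕ) (x : Fin (r + 1) → K) :
    Matrix (EE r m) (Fin (Tfin d).card) K :=
  Matrix.of fun q s => MvPolynomial.aeval x (entC r q.1 (enumM (Tfin d) s))

theorem map_ker (r m d : ℕ) (c : K) (a : Fin r → K) :
    (LinearMap.ker (condM r m d (Fin.cons c a : Fin (r + 1) → K)).mulVecLin).map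
      (coordMap K (Tfin d)) =
      mspan K (Tset d) ⊓ Submodule.restrictScalars K (jetIdeal m c a) := by
  ext f
  rw [Submodule.mem_map, Submodule.mem_inf, ← coe_Tfin, mem_mspan_iff]
  have key : ∀ v : Fin (Tfin d).card → K,
      v ∈ LinearMap.ker (condM r m d (Fin.cons c a : Fin (r + 1) → K)).mulVecLin ↔
        coordMap K (Tfin d) v ∈ jetIdeal m c a := by
    intro v
    rw [LinearMap.mem_ker, coordMap_apply, mem_jetIdeal]
    constructor
    · intro h q
      exact congrFun h q
    · intro h
      funext q
      exact h q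
  constructor
  · rintro ⟨v, hv, rfl⟩
    exact ⟨⟨v, rfl⟩, (key v).1 hv⟩
  · rintro ⟨⟨v, rfl⟩, hf⟩
    exact ⟨v, (key v).2 hf, rfl⟩

theorem finrank_add_rank (r m d : ℕ) (c : K) (a : Fin r → K) :
    Module.finrank K ↥(jforms (jetIdeal m c a) d) +
      (condM r m d (Fin.cons c a : Fin (r + 1) → K)).rank = (d + 2).choose 2 := by
  rw [finrank_jforms_eq, ← map_ker, ← card_Tfin_choose]
  have h1 := (Submodule.equivMapOfInjective (coordMap K (Tfin d)) (coordMap_inj _)
    (LinearMap.ker (condM r m d (Fin.cons c a : Fin (r + 1) → K)).mulVecLin)).finrank_eq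
  rw [← h1, Matrix.rank]
  have h2 := LinearMap.finrank_range_add_finrank_ker
    (condM r m d (Fin.cons c a : Fin (r + 1) → K)).mulVecLin
  rw [Module.finrank_fin_fun] at h2
  omega

theorem lower (r m d : ℕ) (c : K) (a : Fin r → K) :
    (d + 2).choose 2 ≤ Module.finrank K ↥(jforms (jetIdeal m c a) d) +
      r * (m + 1).choose 2 := by
  have h1 := finrank_add_rank r m d c a
  have h2 := (condM r m d (Fin.cons c a : Fin (r + 1) → K)).rank_le_card_height
  have h3 : Fintype.card ↥(EE r m) = r * (m + 1).choose 2 := by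
    rw [Fintype.card_coe, card_EE_eq']
  omega

/-- a minor of the matrix of the conditions, over the integers -/
theorem exists_minor {r m d : ℕ} (x0 : Fin (r + 1) → K) :
    ∃ D : MvPolynomial (Fin (r + 1)) ℤ, MvPolynomial.aeval x0 D ≠ 0 ∧
      ∀ (L : Type v) [Field L] (x : Fin (r + 1) → L), MvPolynomial.aeval x D ≠ 0 →
        (condM r m d x0).rank ≤ (condM r m d x).rank := by
  classical
  obtain ⟨f, hf, -, hli⟩ :=
    Submodule.exists_fun_fin_finrank_span_eq K (Set.range (condM r m d x0).col)
  have hR : (condM r m d x0).rank =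
      Module.finrank K (Submodule.span K (Set.range (condM r m d x0).col)) :=
    Matrix.rank_eq_finrank_span_cols _
  choose σ hσ using hf
  obtain ⟨b, hb⟩ := Pool.Agent.TH15.Nag.exists_rows
    (fun (q : EE r m)
      (i : Fin (Module.finrank K (Submodule.span K (Set.range (condM r m d x0).col)))) =>
      condM r m d x0 q (σ i)) (by
    intro c hc
    have h1 : ∑ i, c i • f i = 0 := by
      funext q
      rw [Finset.sum_apply, Pi.zero_apply, ← hc q]
      refine Finset.sum_congr rfl fun i _ => ?_
      rw [Pi.smul_apply, smul_eq_mul, ← hσ i, mul_comm]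
      rfl
    funext i
    exact Fintype.linearIndependent_iff.1 hli c h1 i)
  refine ⟨(Matrix.of fun (j i : Fin (Module.finrank K
    (Submodule.span K (Set.range (condM r m d x0).col)))) =>
      entC r (b j).1 (enumM (Tfin d) (σ i))).det, ?_, ?_⟩
  · intro h0
    apply hb
    refine Eq.trans ?_ h0
    rw [AlgHom.map_det]
    rfl
  · intro L _ x hx
    rw [AlgHom.map_det] at hx
    have h1 : ((condM r m d x).submatrix b σ).rank =
        Module.finrank K (Submodule.span K (Set.range (condM r m d x0).col)) := by
      have h2 : IsUnit ((condM r m d x).submatrix b σ) := by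
        rw [Matrix.isUnit_iff_isUnit_det]
        exact IsUnit.mk0 _ hx
      rw [Matrix.rank_of_isUnit _ h2, Fintype.card_fin]
    rw [hR, ← h1]
    exact Matrix.rank_submatrix_le _ _ _

end rank

section transfer

variable {K : Type u} [Field K]

/-- the expected number of forms in the degrees in `S` -/
def Exp {K : Type u} [Field K] (r m : ℕ) (x : Fin (r + 1) → K) (S : Set ℕ) : Prop :=
  ∀ d ∈ S, Module.finrank K ↥(jforms (jetIdeal m (x 0) (fun j : Fin r => x j.succ)) d) =
    (d + 2).choose 2 - r * (m + 1).choose 2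

theorem exp_of_le {r m : ℕ} {x : Fin (r + 1) → K} {S : Set ℕ}
    (h : ∀ d ∈ S, Module.finrank K ↥(jforms (jetIdeal m (x 0) (fun j : Fin r => x j.succ)) d) ≤
      (d + 2).choose 2 - r * (m + 1).choose 2) : Exp r m x S := by
  intro d hd
  have h1 := h d hd
  have h2 := lower r m d (x 0) (fun j : Fin r => x j.succ)
  omega

theorem succ_choose (d : ℕ) : d + 1 ≤ (d + 2).choose 2 := by
  rw [Nat.choose_succ_succ' (d + 1) 1, Nat.choose_one_right]
  omega

/-- the expected number of forms in all degrees in `S` passes to all points where one integral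
polynomial does not vanish, over all fields -/
theorem exp_transfer {r m : ℕ} {x0 : Fin (r + 1) → K} {S : Set ℕ} (h : Exp r m x0 S) :
    ∃ D : MvPolynomial (Fin (r + 1)) ℤ, MvPolynomial.aeval x0 D ≠ 0 ∧
      ∀ (L : Type v) [Field L] (x : Fin (r + 1) → L), MvPolynomial.aeval x D ≠ 0 →
        Exp r m x S := by
  classical
  obtain ⟨B, hB⟩ : ∃ B : ℕ, (∀ d ∈ S, d ≤ B) ∨
      (B ∈ S ∧ r * (m + 1).choose 2 ≤ (B + 2).choose 2) := by
    by_cases h1 : ∃ d ∈ S, r * (m + 1).choose 2 ≤ (d + 2).choose 2
    · obtain ⟨d, hd, hd'⟩ := h1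
      exact ⟨d, Or.inr ⟨hd, hd'⟩⟩
    · push Not at h1
      refine ⟨r * (m + 1).choose 2, Or.inl fun d hd => ?_⟩
      have h2 := h1 d hd
      have h3 := succ_choose d
      omega
  choose D hD hD' using fun d : ℕ => exists_minor.{u, v} (r := r) (m := m) (d := d) x0
  refine ⟨∏ d ∈ Finset.range (B + 1), D d, ?_, fun L _ x hx => exp_of_le fun d hd => ?_⟩
  · rw [map_prod, Finset.prod_ne_zero_iff]
    exact fun d _ => hD d
  · rw [map_prod, Finset.prod_ne_zero_iff] at hx
    have hsmall : ∀ e ∈ S, e ≤ B →
        Module.finrank L ↥(jforms (jetIdeal m (x 0) (fun j : Fin r => x j.succ)) e) ≤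
          (e + 2).choose 2 - r * (m + 1).choose 2 := by
      intro e he heB
      have h1 := hD' e L x (hx e (Finset.mem_range.2 (by omega)))
      have h2 := finrank_add_rank r m e (x 0) (fun j : Fin r => x j.succ)
      have h3 := finrank_add_rank r m e (x0 0) (fun j : Fin r => x0 j.succ)
      have h4 := h e he
      have e1 : (Fin.cons (x 0) (fun j : Fin r => x j.succ) : Fin (r + 1) → L) = x :=
        Fin.cons_self_tail x
      have e2 : (Fin.cons (x0 0) (fun j : Fin r => x0 j.succ) : Fin (r + 1) → K) = x0 :=
        Fin.cons_self_tail x0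
      rw [e1] at h2
      rw [e2] at h3
      omega
    by_cases hdB : d ≤ B
    · exact hsmall d hd hdB
    · rcases hB with hB | ⟨hB, hB'⟩
      · exact absurd (hB d hd) hdB
      · have h1 := hsmall B hB le_rfl
        have h2 := jforms_grow (J := jetIdeal m (x 0) (fun j : Fin r => x j.succ))
          (D := B) (d := d) (by omega)
        omega

end transfer

end Pool.Agent.H937.OG
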