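import Pool.Agent.H937.OG.Germ
import Pool.Graph.R_seed8.Y210.EF.Kron

/-!
# Effective bounds: the coefficients and the degrees of the minors
-/

set_option autoImplicit false

namespace Pool.Agent.H937.OG

open Polynomial Pool.Agent.H932R2 Pool.Agent.H932R3 Pool.Agent.TH545.CF Pool.Agent.Y210.EF

universe u v

section norm

/-- a submultiplicative norm with values in the natural numbers -/
structure Nm {R : Type} [CommRing R] (ν : R → ℕ) : Prop where
  zero : ν 0 = 0
  add : ∀ a b, ν (a + b) ≤ ν a + ν b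
  mul : ∀ a b, ν (a * b) ≤ ν a * ν b
  one : ν 1 ≤ 1

theorem sum_le' {R : Type} [AddCommMonoid R] {ν : R → ℕ} (h0 : ν 0 = 0)
    (h : ∀ a b, ν (a + b) ≤ ν a + ν b) {ι : Type} (S : Finset ι) (f : ι → R) :
    ν (∑ i ∈ S, f i) ≤ ∑ i ∈ S, ν (f i) := by
  classical
  induction S using Finset.induction_on with
  | empty => simp [h0]
  | insert a S ha ih =>
    rw [Finset.sum_insert ha, Finset.sum_insert ha]
    exact (h _ _).trans (by omega)

variable {R : Type} [CommRing R]

/-- the sum of the norms of the coefficients -/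
noncomputable def up (ν : R → ℕ) (f : R[X]) : ℕ := ∑ i ∈ f.support, ν (f.coeff i)

theorem up_eq {ν : R → ℕ} (h : ν 0 = 0) {f : R[X]} {S : Finset ℕ} (hS : f.support ⊆ S) :
    up ν f = ∑ i ∈ S, ν (f.coeff i) := by
  refine Finset.sum_subset hS fun i _ hi => ?_
  rw [notMem_support_iff.1 hi, h]

theorem le_up {ν : R → ℕ} (h : ν 0 = 0) (f : R[X]) (i : ℕ) : ν (f.coeff i) ≤ up ν f := by
  by_cases hi : i ∈ f.support
  · exact Finset.single_le_sum (f := fun i => ν (f.coeff i)) (fun _ _ => Nat.zero_le _) hi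
  · rw [notMem_support_iff.1 hi, h]
    exact Nat.zero_le _

theorem up_monomial {ν : R → ℕ} (h : ν 0 = 0) (i : ℕ) (a : R) : up ν (monomial i a) ≤ ν a := by
  rw [up_eq h (S := {i}) (support_monomial_subset i a), Finset.sum_singleton, coeff_monomial,
    if_pos rfl]

theorem up_add {ν : R → ℕ} (h : ν 0 = 0) (ha : ∀ a b, ν (a + b) ≤ ν a + ν b) (f g : R[X]) :
    up ν (f + g) ≤ up ν f + up ν g := by
  classical
  rw [up_eq h (f := f + g) (S := f.support ∪ g.support) support_add,
    up_eq h (f := f) (S := f.support ∪ g.support) Finset.subset_union_left,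
    up_eq h (f := g) (S := f.support ∪ g.support) Finset.subset_union_right,
    ← Finset.sum_add_distrib]
  refine Finset.sum_le_sum fun i _ => ?_
  rw [coeff_add]
  exact ha _ _

theorem up_nm {ν : R → ℕ} (h : Nm ν) : Nm (up ν) where
  zero := by simp [up]
  add := up_add h.zero h.add
  mul f g := by
    have h0 : up ν 0 = 0 := by simp [up]
    have h1 : f * g = ∑ i ∈ f.support, ∑ j ∈ g.support, monomial (i + j) (f.coeff i * g.coeff j) :=
      mul_eq_sum_sum
    rw [h1]
    refine (sum_le' h0 (up_add h.zero h.add) _ _).trans ?_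
    unfold up
    rw [Finset.sum_mul_sum]
    refine Finset.sum_le_sum fun i _ => ?_
    refine (sum_le' h0 (up_add h.zero h.add) g.support
      (fun j => monomial (i + j) (f.coeff i * g.coeff j))).trans
      (Finset.sum_le_sum fun j _ => ?_)
    exact (up_monomial h.zero _ _).trans (h.mul _ _)
  one := by
    have h1 := up_monomial h.zero 0 (1 : R)
    rw [monomial_zero_one] at h1
    exact h1.trans h.one

theorem Nm.pow {ν : R → ℕ} (h : Nm ν) {a : R} {B : ℕ} (ha : ν a ≤ B) (k : ℕ) :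
    ν (a ^ k) ≤ B ^ k := by
  induction k with
  | zero => simpa using h.one
  | succ k ih =>
    rw [pow_succ, pow_succ]
    exact (h.mul _ _).trans (Nat.mul_le_mul ih ha)

theorem up_C {ν : R → ℕ} (h : ν 0 = 0) (a : R) : up ν (C a) ≤ ν a := by
  have h1 := up_monomial h 0 a
  rwa [monomial_zero_left] at h1

theorem up_X {ν : R → ℕ} (h : Nm ν) : up ν (X : R[X]) ≤ 1 := by
  have h1 := up_monomial h.zero 1 (1 : R)
  rw [monomial_one_one_eq_X] at h1
  exact h1.trans h.one

end norm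

section entries

theorem l1_nm {σ : Type} : Nm (l1 : MvPolynomial σ ℤ → ℕ) :=
  ⟨l1_zero, l1_add, l1_mul, l1_one⟩

theorem l1_X {σ : Type} (i : σ) : l1 (MvPolynomial.X i : MvPolynomial σ ℤ) ≤ 1 := by
  have h := l1_X_pow i 1
  rwa [pow_one] at h

theorem sh_mon {A : Type} [CommRing A] (c : A) (γ : A[X]) (s : ℕ × ℕ) :
    sh c γ (C (X ^ s.1) * X ^ s.2) =
      C ((X + C c) ^ s.1) * (X + C (γ.comp (X + C c))) ^ s.2 := by
  rw [map_mul, sh_C, map_pow, sh_X, X_pow_comp]

theorem gZ_comp (r : ℕ) (u : (MvPolynomial (Fin (r + 1)) ℤ)[X]) : (gZ r).comp u =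
    ∑ j : Fin r, C (MvPolynomial.X j.succ) * u ^ (j : ℕ) := by
  unfold gZ
  rw [← coe_compRingHom_apply, map_sum]
  refine Finset.sum_congr rfl fun j _ => ?_
  rw [coe_compRingHom_apply, mul_comp, C_comp, X_pow_comp]

theorem sum_two_pow (r : ℕ) : 1 + ∑ j : Fin r, 2 ^ (j : ℕ) = 2 ^ r := by
  rw [Fin.sum_univ_eq_sum_range (fun j => 2 ^ j) r]
  have := Nat.geomSum_eq (le_refl 2) r
  rw [this]
  have h1 : 1 ≤ 2 ^ r := Nat.one_le_two_pow
  omega

theorem l1_entC {r d : ℕ} (hr : 1 ≤ r) (p : ℕ × ℕ) {s : ℕ × ℕ} (hs : s ∈ Tfin d) :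
    l1 (entC r p s) ≤ 2 ^ (r * d) := by
  have h1 : Nm (up (l1 : MvPolynomial (Fin (r + 1)) ℤ → ℕ)) := up_nm l1_nm
  have h2 : Nm (up (up (l1 : MvPolynomial (Fin (r + 1)) ℤ → ℕ))) := up_nm h1
  have hlin : up (l1 : MvPolynomial (Fin (r + 1)) ℤ → ℕ) (X + C (MvPolynomial.X 0)) ≤ 2 :=
    (h1.add _ _).trans (Nat.add_le_add (up_X l1_nm) ((up_C l1_zero _).trans (l1_X 0)))
  have hg : up (l1 : MvPolynomial (Fin (r + 1)) ℤ → ℕ)
      ((gZ r).comp (X + C (MvPolynomial.X 0))) ≤ ∑ j : Fin r, 2 ^ (j : ℕ) := by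
    rw [gZ_comp]
    refine (sum_le' h1.zero h1.add _ _).trans (Finset.sum_le_sum fun j _ => ?_)
    refine (h1.mul _ _).trans ?_
    have h3 := Nat.mul_le_mul ((up_C l1_zero (MvPolynomial.X j.succ)).trans (l1_X j.succ))
      (h1.pow hlin (j : ℕ))
    rwa [one_mul] at h3
  have hY : up (up (l1 : MvPolynomial (Fin (r + 1)) ℤ → ℕ))
      (X + C ((gZ r).comp (X + C (MvPolynomial.X 0)))) ≤ 2 ^ r := by
    rw [← sum_two_pow]
    exact (h2.add _ _).trans (Nat.add_le_add (up_X h1) ((up_C h1.zero _).trans hg))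
  have hs' : s.1 + s.2 ≤ d := by
    have h4 : s ∈ (↑(Tfin d) : Set (ℕ × ℕ)) := hs
    rw [coe_Tfin] at h4
    exact mem_Tset.1 h4
  unfold entC
  refine (le_up l1_zero _ _).trans ((le_up h1.zero _ _).trans ?_)
  rw [sh_mon]
  refine (h2.mul _ _).trans ?_
  refine (Nat.mul_le_mul ((up_C h1.zero _).trans (h1.pow hlin s.1)) (h2.pow hY s.2)).trans ?_
  rw [← pow_mul, ← pow_add]
  refine Nat.pow_le_pow_right (by norm_num) ?_
  calc s.1 + r * s.2 ≤ r * s.1 + r * s.2 := by nlinarith
    _ = r * (s.1 + s.2) := by ring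
    _ ≤ r * d := Nat.mul_le_mul_left _ hs'

/-- all coefficients have total degree at most `k` -/
def Dg {σ : Type} (k : ℕ) (f : (MvPolynomial σ ℤ)[X]) : Prop :=
  ∀ i, (f.coeff i).totalDegree ≤ k

theorem Dg.mono {σ : Type} {k l : ℕ} {f : (MvPolynomial σ ℤ)[X]} (h : Dg k f) (hkl : k ≤ l) :
    Dg l f := fun i => (h i).trans hkl

theorem Dg.mul {σ : Type} {k l : ℕ} {f g : (MvPolynomial σ ℤ)[X]} (hf : Dg k f) (hg : Dg l g) :
    Dg (k + l) (f * g) := by
  intro i
  rw [coeff_mul]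
  refine MvPolynomial.totalDegree_finsetSum_le fun x _ => ?_
  exact (MvPolynomial.totalDegree_mul _ _).trans (Nat.add_le_add (hf _) (hg _))

theorem Dg.add {σ : Type} {k : ℕ} {f g : (MvPolynomial σ ℤ)[X]} (hf : Dg k f) (hg : Dg k g) :
    Dg k (f + g) := by
  intro i
  rw [coeff_add]
  exact (MvPolynomial.totalDegree_add _ _).trans (max_le (hf _) (hg _))

theorem Dg.sum {σ ι : Type} {k : ℕ} (S : Finset ι) {f : ι → (MvPolynomial σ ℤ)[X]}
    (hf : ∀ j ∈ S, Dg k (f j)) : Dg k (∑ j ∈ S, f j) := by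
  intro i
  rw [finsetSum_coeff]
  exact MvPolynomial.totalDegree_finsetSum_le fun j hj => hf j hj i

theorem dg_C {σ : Type} {k : ℕ} {a : MvPolynomial σ ℤ} (h : a.totalDegree ≤ k) :
    Dg k (C a) := by
  intro i
  rw [coeff_C]
  split
  · exact h
  · rw [MvPolynomial.totalDegree_zero]
    exact Nat.zero_le _

theorem dg_X {σ : Type} : Dg 0 (X : (MvPolynomial σ ℤ)[X]) := by
  intro i
  rw [coeff_X]
  split
  · rw [MvPolynomial.totalDegree_one]
  · rw [MvPolynomial.totalDegree_zero]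

theorem dg_one {σ : Type} : Dg 0 (1 : (MvPolynomial σ ℤ)[X]) := by
  have h := dg_C (σ := σ) (k := 0) (a := 1) (by rw [MvPolynomial.totalDegree_one])
  rwa [C_1] at h

theorem Dg.pow {σ : Type} {k : ℕ} {f : (MvPolynomial σ ℤ)[X]} (hf : Dg k f) (n : ℕ) :
    Dg (n * k) (f ^ n) := by
  induction n with
  | zero => rw [pow_zero, zero_mul]; exact dg_one
  | succ n ih => rw [pow_succ, Nat.succ_mul]; exact ih.mul hf

/-- the same for the second variable -/
def Dh {σ : Type} (k : ℕ) (f : (MvPolynomial σ ℤ)[X][X]) : Prop := ∀ i, Dg k (f.coeff i)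

theorem Dh.mul {σ : Type} {k l : ℕ} {f g : (MvPolynomial σ ℤ)[X][X]} (hf : Dh k f)
    (hg : Dh l g) : Dh (k + l) (f * g) := by
  intro i
  rw [coeff_mul]
  exact Dg.sum _ fun x _ => (hf _).mul (hg _)

theorem dh_one {σ : Type} : Dh 0 (1 : (MvPolynomial σ ℤ)[X][X]) := by
  intro i
  rw [coeff_one]
  split
  · exact dg_one
  · intro j
    rw [coeff_zero, MvPolynomial.totalDegree_zero]

theorem Dh.pow {σ : Type} {k : ℕ} {f : (MvPolynomial σ ℤ)[X][X]} (hf : Dh k f) (n : ℕ) :
    Dh (n * k) (f ^ n) := by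
  induction n with
  | zero => rw [pow_zero, zero_mul]; exact dh_one
  | succ n ih => rw [pow_succ, Nat.succ_mul]; exact ih.mul hf

theorem dh_C {σ : Type} {k : ℕ} {a : (MvPolynomial σ ℤ)[X]} (h : Dg k a) : Dh k (C a) := by
  intro i
  rw [coeff_C]
  split
  · exact h
  · intro j
    rw [coeff_zero, MvPolynomial.totalDegree_zero]
    exact Nat.zero_le _

theorem deg_entC {r d : ℕ} (hr : 1 ≤ r) (p : ℕ × ℕ) {s : ℕ × ℕ} (hs : s ∈ Tfin d) :
    (entC r p s).totalDegree ≤ r * d := by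
  have hlin : Dg 1 (X + C (MvPolynomial.X 0) : (MvPolynomial (Fin (r + 1)) ℤ)[X]) :=
    (dg_X.mono (Nat.zero_le 1)).add (dg_C (MvPolynomial.totalDegree_X _).le)
  have hg : Dg r ((gZ r).comp (X + C (MvPolynomial.X 0))) := by
    rw [gZ_comp]
    refine Dg.sum _ fun j _ => ?_
    refine Dg.mono ((dg_C (MvPolynomial.totalDegree_X _).le).mul (hlin.pow (j : ℕ))) ?_
    have := j.2
    omega
  have hY : Dh r (X + C ((gZ r).comp (X + C (MvPolynomial.X 0)))) := by
    intro i
    rw [coeff_add]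
    refine Dg.add ?_ (dh_C hg i)
    rw [coeff_X]
    split
    · exact dg_one.mono (Nat.zero_le _)
    · intro j
      rw [coeff_zero, MvPolynomial.totalDegree_zero]
      exact Nat.zero_le _
  have hs' : s.1 + s.2 ≤ d := by
    have h4 : s ∈ (↑(Tfin d) : Set (ℕ × ℕ)) := hs
    rw [coe_Tfin] at h4
    exact mem_Tset.1 h4
  unfold entC
  rw [sh_mon]
  refine (((dh_C (hlin.pow s.1)).mul (hY.pow s.2)) p.2 p.1).trans ?_
  calc s.1 * 1 + s.2 * r ≤ r * s.1 + r * s.2 := by nlinarith
    _ = r * (s.1 + s.2) := by ring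
    _ ≤ r * d := Nat.mul_le_mul_left _ hs'

end entries

section minors

variable {K : Type u} [Field K]

/-- a minor of the matrix of the conditions, over the integers, with bounds -/
theorem exists_minor' {r m d : ℕ} (hr : 1 ≤ r) (x0 : Fin (r + 1) → K) :
    ∃ D : MvPolynomial (Fin (r + 1)) ℤ, MvPolynomial.aeval x0 D ≠ 0 ∧
      l1 D ≤ (r * (m + 1).choose 2).factorial * 2 ^ (r * d * (r * (m + 1).choose 2)) ∧
      D.totalDegree ≤ r * (m + 1).choose 2 * (r * d) ∧
      ∀ (L : Type v) [Field L] (x : Fin (r + 1) → L), MvPolynomial.aeval x D ≠ 0 →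
        (condM r m d x0).rank ≤ (condM r m d x).rank := by
  classical
  obtain ⟨f, hf, -, hli⟩ :=
    Submodule.exists_fun_fin_finrank_span_eq K (Set.range (condM r m d x0).col)
  have hR : (condM r m d x0).rank =
      Module.finrank K (Submodule.span K (Set.range (condM r m d x0).col)) :=
    Matrix.rank_eq_finrank_span_cols _
  choose σ hσ using hf
  obtain ⟨b, hb⟩ := Pool.Agent.TH15.Nag.exists_rows
    (fun (q : EE r m)
      (i : Fin (Module.finrank K (Submodule.span K (Set.range (condM r m d x0).col)))) =>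
      condM r m d x0 q (σ i)) (by
    intro c hc
    have h1 : ∑ i, c i • f i = 0 := by
      funext q
      rw [Finset.sum_apply, Pi.zero_apply, ← hc q]
      refine Finset.sum_congr rfl fun i _ => ?_
      rw [Pi.smul_apply, smul_eq_mul, ← hσ i, mul_comm]
      rfl
    funext i
    exact Fintype.linearIndependent_iff.1 hli c h1 i)
  have hn : Module.finrank K (Submodule.span K (Set.range (condM r m d x0).col)) ≤
      r * (m + 1).choose 2 := by
    rw [← hR]
    have h2 := (condM r m d x0).rank_le_card_height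
    have h3 : Fintype.card ↥(EE r m) = r * (m + 1).choose 2 := by
      rw [Fintype.card_coe, card_EE_eq']
    omega
  refine ⟨(Matrix.of fun (j i : Fin (Module.finrank K
    (Submodule.span K (Set.range (condM r m d x0).col)))) =>
      entC r (b j).1 (enumM (Tfin d) (σ i))).det, ?_, ?_, ?_, ?_⟩
  · intro h0
    apply hb
    refine Eq.trans ?_ h0
    rw [AlgHom.map_det]
    rfl
  · refine (l1_det _ (2 ^ (r * d)) fun j i => l1_entC hr _ (enumM_mem _ _)).trans ?_
    rw [pow_mul 2 (r * d) (r * (m + 1).choose 2)]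
    exact Nat.mul_le_mul (Nat.factorial_le hn)
      (Nat.pow_le_pow_right (Nat.one_le_two_pow) hn)
  · refine (deg_det _ (r * d) fun j i => deg_entC hr _ (enumM_mem _ _)).trans ?_
    exact Nat.mul_le_mul_right _ hn
  · intro L _ x hx
    rw [AlgHom.map_det] at hx
    have h1 : ((condM r m d x).submatrix b σ).rank =
        Module.finrank K (Submodule.span K (Set.range (condM r m d x0).col)) := by
      have h2 : IsUnit ((condM r m d x).submatrix b σ) := by
        rw [Matrix.isUnit_iff_isUnit_det]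
        exact IsUnit.mk0 _ hx
      rw [Matrix.rank_of_isUnit _ h2, Fintype.card_fin]
    rw [hR, ← h1]
    exact Matrix.rank_submatrix_le _ _ _

end minors

end Pool.Agent.H937.OG
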