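import Pool.Agent.H937.OG.Eff

/-!
# The effective passage from one collision to general collisions, to generic germs and to explicit
collisions with integral coefficients
-/

set_option autoImplicit false

namespace Pool.Agent.H937.OG

open Polynomial Pool.Agent.H932R2 Pool.Agent.H932R3 Pool.Agent.TH545.CF Pool.Agent.Y210.EF

universe u v

/-- the degrees which are to be considered -/
def dmax (r m : ℕ) : ℕ := (m + 1) * (Nat.sqrt r + 1) + 1

/-- the bound for the coefficients -/
def hBound (r m : ℕ) : ℕ :=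
  (r * (m + 1).choose 2).factorial * 2 ^ (r * dmax r m * (r * (m + 1).choose 2))

/-- the bound for the degrees -/
def dBound (r m : ℕ) : ℕ := r * (m + 1).choose 2 * (r * dmax r m)

theorem le_choose {r m B : ℕ} (hB : (m + 1) * (Nat.sqrt r + 1) ≤ B) :
    r * (m + 1).choose 2 ≤ (B + 2).choose 2 := by
  have h1 : r < (Nat.sqrt r + 1) * (Nat.sqrt r + 1) := Nat.lt_succ_sqrt r
  have h2 : (B + 2).choose 2 * 2 = (B + 2) * (B + 1) := by
    rw [Nat.choose_two_right, Nat.div_mul_cancel (Nat.even_mul_pred_self _).two_dvd]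
    rfl
  have h3 : (m + 1).choose 2 * 2 = (m + 1) * m := by
    rw [Nat.choose_two_right, Nat.div_mul_cancel (Nat.even_mul_pred_self _).two_dvd]
    rfl
  have h4 : (m + 1) * (Nat.sqrt r + 1) * ((m + 1) * (Nat.sqrt r + 1)) ≤ B * B :=
    Nat.mul_le_mul hB hB
  have h5 : r * ((m + 1) * m) ≤ (Nat.sqrt r + 1) * (Nat.sqrt r + 1) * ((m + 1) * (m + 1)) :=
    Nat.mul_le_mul h1.le (Nat.mul_le_mul_left _ (Nat.le_succ m))
  have h6 : (Nat.sqrt r + 1) * (Nat.sqrt r + 1) * ((m + 1) * (m + 1)) =
      (m + 1) * (Nat.sqrt r + 1) * ((m + 1) * (Nat.sqrt r + 1)) := by ring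
  have h7 : r * (m + 1).choose 2 * 2 = r * ((m + 1) * m) := by rw [mul_assoc, h3]
  nlinarith

theorem transfer_eff {K : Type v} [Field K] {r m : ℕ} (hr : 1 ≤ r) {x0 : Fin (r + 1) → K}
    {S : Set ℕ} (hS : ∃ B ∈ S, (m + 1) * (Nat.sqrt r + 1) ≤ B ∧ B ≤ dmax r m)
    (h : Exp r m x0 S) :
    ∃ D : ℕ → MvPolynomial (Fin (r + 1)) ℤ, (∀ d, MvPolynomial.aeval x0 (D d) ≠ 0) ∧
      (∀ d ≤ dmax r m, l1 (D d) ≤ hBound r m ∧ (D d).totalDegree ≤ dBound r m) ∧
      ∀ (L : Type u) [Field L] (x : Fin (r + 1) → L),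
        (∀ d ≤ dmax r m, MvPolynomial.aeval x (D d) ≠ 0) → Exp r m x S := by
  obtain ⟨B, hB, hB1, hB2⟩ := hS
  have hB' := le_choose hB1
  choose D hD hl hd hD' using
    fun d : ℕ => exists_minor'.{v, u} (r := r) (m := m) (d := d) hr x0
  refine ⟨D, hD, fun d hdm => ⟨(hl d).trans ?_, (hd d).trans ?_⟩,
    fun L _ x hx => exp_of_le fun d hd' => ?_⟩
  · unfold hBound
    refine Nat.mul_le_mul_left _ (Nat.pow_le_pow_right (by norm_num) ?_)
    exact Nat.mul_le_mul_right _ (Nat.mul_le_mul_left _ hdm)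
  · unfold dBound
    exact Nat.mul_le_mul_left _ (Nat.mul_le_mul_left _ hdm)
  · have hsmall : ∀ e ∈ S, e ≤ dmax r m →
        Module.finrank L ↥(jforms (jetIdeal m (x 0) (fun j : Fin r => x j.succ)) e) ≤
          (e + 2).choose 2 - r * (m + 1).choose 2 := by
      intro e he heB
      have h1 := hD' e L x (hx e heB)
      have h2 := finrank_add_rank r m e (x 0) (fun j : Fin r => x j.succ)
      have h3 := finrank_add_rank r m e (x0 0) (fun j : Fin r => x0 j.succ)
      have h4 := h e he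
      have e1 : (Fin.cons (x 0) (fun j : Fin r => x j.succ) : Fin (r + 1) → L) = x :=
        Fin.cons_self_tail x
      have e2 : (Fin.cons (x0 0) (fun j : Fin r => x0 j.succ) : Fin (r + 1) → K) = x0 :=
        Fin.cons_self_tail x0
      rw [e1] at h2
      rw [e2] at h3
      omega
    by_cases hdB : d ≤ B
    · exact hsmall d hd' (hdB.trans hB2)
    · have h1 := hsmall B hB hB2
      have h2 := jforms_grow (J := jetIdeal m (x 0) (fun j : Fin r => x j.succ))
        (D := B) (d := d) (by omega)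
      omega

theorem l1_aeval {σ τ : Type} (f : σ → MvPolynomial τ ℤ) (hf : ∀ i, l1 (f i) ≤ 1)
    (D : MvPolynomial σ ℤ) : l1 (MvPolynomial.aeval f D) ≤ l1 D := by
  classical
  have h1 : MvPolynomial.aeval f D =
      ∑ s ∈ D.support, MvPolynomial.C (D.coeff s) * ∏ i ∈ s.support, f i ^ s i := by
    rw [MvPolynomial.aeval_def, MvPolynomial.eval₂_eq]
    rfl
  rw [h1]
  refine (l1_sum _ _).trans (Finset.sum_le_sum fun s _ => ?_)
  refine (l1_mul _ _).trans ?_
  have h2 : l1 (∏ i ∈ s.support, f i ^ s i) ≤ 1 ^ s.support.card := by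
    refine l1_prod _ _ 1 fun i _ => ?_
    have h3 := (l1_nm (σ := τ)).pow (hf i) (s i)
    rwa [one_pow] at h3
  rw [one_pow] at h2
  calc l1 (MvPolynomial.C (D.coeff s)) * l1 (∏ i ∈ s.support, f i ^ s i)
      ≤ (D.coeff s).natAbs * 1 := Nat.mul_le_mul (l1_C _) h2
    _ = (D.coeff s).natAbs := mul_one _

theorem deg_aeval {σ τ : Type} (f : σ → MvPolynomial τ ℤ) (hf : ∀ i, (f i).totalDegree ≤ 1)
    (D : MvPolynomial σ ℤ) : (MvPolynomial.aeval f D).totalDegree ≤ D.totalDegree := by
  classical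
  have h1 : MvPolynomial.aeval f D =
      ∑ s ∈ D.support, MvPolynomial.C (D.coeff s) * ∏ i ∈ s.support, f i ^ s i := by
    rw [MvPolynomial.aeval_def, MvPolynomial.eval₂_eq]
    rfl
  rw [h1]
  refine MvPolynomial.totalDegree_finsetSum_le fun s hs => ?_
  refine (MvPolynomial.totalDegree_mul _ _).trans ?_
  rw [MvPolynomial.totalDegree_C, zero_add]
  refine (MvPolynomial.totalDegree_finsetProd _ _).trans ?_
  refine le_trans (Finset.sum_le_sum fun i _ => ?_) (MvPolynomial.le_totalDegree hs)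
  refine (MvPolynomial.totalDegree_pow _ _).trans ?_
  exact (Nat.mul_le_mul_left _ (hf i)).trans (mul_one _).le

/-- putting `x_0 = 0`, with finitely many variables -/
noncomputable def subst' (r : ℕ) : Fin (r + 1) → MvPolynomial (Fin r) ℤ :=
  Fin.cons 0 (fun j : Fin r => MvPolynomial.X j)

theorem aeval_subst' {M : Type u} [CommRing M] {r : ℕ} (e : Fin r → M)
    (D : MvPolynomial (Fin (r + 1)) ℤ) :
    MvPolynomial.aeval e (MvPolynomial.aeval (subst' r) D) =
      MvPolynomial.aeval (Fin.cons 0 e : Fin (r + 1) → M) D := by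
  have h : (MvPolynomial.aeval e).comp (MvPolynomial.aeval (subst' r)) =
      (MvPolynomial.aeval (Fin.cons 0 e : Fin (r + 1) → M) :
        MvPolynomial (Fin (r + 1)) ℤ →ₐ[ℤ] M) := by
    refine MvPolynomial.algHom_ext fun i => ?_
    refine Fin.cases ?_ (fun j => ?_) i
    · simp [subst']
    · simp [subst']
  exact AlgHom.congr_fun h D

theorem l1_subst (r : ℕ) (i : Fin (r + 1)) : l1 (subst r i) ≤ 1 := by
  refine Fin.cases ?_ (fun j => ?_) i
  · rw [subst, Fin.cons_zero, l1_zero]
    exact Nat.zero_le _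
  · rw [subst, Fin.cons_succ]
    exact l1_X _

theorem l1_subst' (r : ℕ) (i : Fin (r + 1)) : l1 (subst' r i) ≤ 1 := by
  refine Fin.cases ?_ (fun j => ?_) i
  · rw [subst', Fin.cons_zero, l1_zero]
    exact Nat.zero_le _
  · rw [subst', Fin.cons_succ]
    exact l1_X _

theorem deg_subst' (r : ℕ) (i : Fin (r + 1)) : (subst' r i).totalDegree ≤ 1 := by
  refine Fin.cases ?_ (fun j => ?_) i
  · rw [subst', Fin.cons_zero, MvPolynomial.totalDegree_zero]
    exact Nat.zero_le _
  · rw [subst', Fin.cons_succ]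
    exact (MvPolynomial.totalDegree_X _).le

/-- the bound for the degree of the hypersurface -/
def fBound (r m : ℕ) : ℕ := (dmax r m + 1) * dBound r m

theorem map_ne {K : Type v} [Field K] {k : Type u} [Field k] {σ : Type} (p : ℕ) [CharP k p] {H : ℕ}
    {D : MvPolynomial σ ℤ} (hl : l1 D ≤ H) {x0 : σ → K} (hx : MvPolynomial.aeval x0 D ≠ 0)
    (hp : p = 0 ∨ H < p ∨ CharP K p) : MvPolynomial.map (Int.castRingHom k) D ≠ 0 := by
  rcases hp with rfl | hp | hp
  · exact map_ne_zero_of_lt (ne_zero_of_aeval hx) hl (Or.inl (CharP.charP_to_charZero k))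
  · exact map_ne_zero_of_lt (ne_zero_of_aeval hx) hl (Or.inr ⟨p, ‹_›, hp⟩)
  · intro h1
    apply hx
    have h2 : MvPolynomial.map (Int.castRingHom K) D = 0 := by
      ext α
      have h3 := congrArg (MvPolynomial.coeff α) h1
      rw [MvPolynomial.coeff_map, MvPolynomial.coeff_zero, eq_intCast,
        CharP.intCast_eq_zero_iff k p] at h3
      rw [MvPolynomial.coeff_map, MvPolynomial.coeff_zero, eq_intCast,
        CharP.intCast_eq_zero_iff K p]
      exact h3
    have h4 : MvPolynomial.aeval x0 D =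
        MvPolynomial.eval x0 (MvPolynomial.map (Int.castRingHom K) D) := by
      rw [MvPolynomial.eval_map, MvPolynomial.aeval_def]
      congr 1
    rw [h4, h2, map_zero]

/-- The expected number of forms in all degrees in `S`, at one collision over one field, passes, with
effective bounds, to general collisions, to the collisions of generic germs, and to explicit
collisions with integral coefficients. -/
theorem eff_of_exp {K : Type v} [Field K] {r m : ℕ} (hr : 1 ≤ r) {x0 : Fin (r + 1) → K} {S : Set ℕ}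
    (hS : ∃ B ∈ S, (m + 1) * (Nat.sqrt r + 1) ≤ B ∧ B ≤ dmax r m) (h : Exp r m x0 S) :
    ∀ (k : Type u) [Field k] (p : ℕ) [CharP k p], p = 0 ∨ hBound r m < p ∨ CharP K p →
      (∃ F : MvPolynomial (Fin (r + 1)) k, F ≠ 0 ∧ F.totalDegree ≤ fBound r m ∧
        ∀ x : Fin (r + 1) → k, MvPolynomial.eval x F ≠ 0 → Exp r m x S) ∧
      (∀ a : ℕ → k, Generic a →
        Exp r m (Fin.cons 0 (fun j : Fin r => a j) : Fin (r + 1) → k) S) ∧
      (p = 0 → ∀ T E : ℕ, hBound r m < T → dBound r m < E →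
        Exp r m (Fin.cons 0 (fun j : Fin r => (T : k) ^ E ^ (j : ℕ)) : Fin (r + 1) → k) S) := by
  classical
  obtain ⟨D, hD, hb, hD'⟩ := transfer_eff.{u, v} hr hS h
  obtain ⟨b0, hb0⟩ := exp_zero h
  obtain ⟨G, hG, hgb, hG'⟩ := transfer_eff.{u, v} hr hS hb0
  obtain ⟨e, he⟩ : ∃ e : ℕ → K, (fun j : Fin r => e j) = b0 :=
    ⟨fun n => if h : n < r then b0 ⟨n, h⟩ else 0, by
      funext j
      simp⟩
  have hG2 : ∀ d, MvPolynomial.aeval e (MvPolynomial.aeval (subst r) (G d)) ≠ 0 := by
    intro d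
    rw [aeval_subst e (G d), he]
    exact hG d
  have hG3 : ∀ d, MvPolynomial.aeval (subst' r) (G d) ≠ 0 := by
    intro d h0
    apply hG d
    rw [← aeval_subst' b0 (G d), h0, map_zero]
  intro k _ p _ hp
  refine ⟨?_, fun a ha => ?_, fun hp0 T E hT hE => ?_⟩
  · refine ⟨∏ d ∈ Finset.range (dmax r m + 1), MvPolynomial.map (Int.castRingHom k) (D d), ?_, ?_,
      fun x hx => hD' k x fun d hd => ?_⟩
    · rw [Finset.prod_ne_zero_iff]
      intro d hd
      exact map_ne p (hb d (by have := Finset.mem_range.1 hd; omega)).1 (hD d) hp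
    · refine (MvPolynomial.totalDegree_finsetProd _ _).trans ?_
      refine (Finset.sum_le_card_nsmul _ _ (dBound r m) fun d hd => ?_).trans ?_
      · refine le_trans ?_ (hb d (by have := Finset.mem_range.1 hd; omega)).2
        exact Finset.sup_mono (MvPolynomial.support_map_subset _ _)
      · rw [Finset.card_range, smul_eq_mul]
        rfl
    · rw [map_prod, Finset.prod_ne_zero_iff] at hx
      have h1 := hx d (Finset.mem_range.2 (by omega))
      have h4 : MvPolynomial.eval x (MvPolynomial.map (Int.castRingHom k) (D d)) =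
          MvPolynomial.aeval x (D d) := by
        rw [MvPolynomial.eval_map, MvPolynomial.aeval_def]
        congr 1
      rwa [h4] at h1
  · refine hG' k _ fun d hd => ?_
    rw [← aeval_subst a (G d)]
    exact ha _ (map_ne p ((l1_aeval _ (l1_subst r) _).trans (hgb d hd).1) (hG2 d) hp)
  · subst hp0
    have hz : CharZero k := CharP.charP_to_charZero k
    refine hG' k _ fun d hd => ?_
    have h1 := kron (hG3 d) (E := E) (T := T)
      (lt_of_le_of_lt ((deg_aeval _ (deg_subst' r) _).trans (hgb d hd).2) hE)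
      (lt_of_le_of_lt ((l1_aeval _ (l1_subst' r) _).trans (hgb d hd).1) hT)
    rw [← aeval_subst' (fun j : Fin r => (T : k) ^ E ^ (j : ℕ)) (G d)]
    have h2 : MvPolynomial.aeval (fun j : Fin r => (T : k) ^ E ^ (j : ℕ))
        (MvPolynomial.aeval (subst' r) (G d)) =
        ((MvPolynomial.eval (fun j : Fin r => (T : ℤ) ^ E ^ (j : ℕ))
          (MvPolynomial.aeval (subst' r) (G d)) : ℤ) : k) := by
      rw [MvPolynomial.aeval_def, MvPolynomial.eval, MvPolynomial.coe_eval₂Hom,
        ← eq_intCast (Int.castRingHom k), MvPolynomial.hom_eval₂]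
      congr 1
      funext j
      simp
    rw [h2]
    exact_mod_cast h1

end Pool.Agent.H937.OG
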