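import Pool.Agent.H937.OG.Base

/-!
# From one collision over one field to generic germs and general collisions over all fields of
characteristic zero or of large characteristic

The section on translations follows `Pool.Agent.H418.CO.Base` (helper418).
-/

set_option autoImplicit false

namespace Pool.Agent.H937.OG

open Polynomial Pool.Agent.H932R2 Pool.Agent.H932R3 Pool.Agent.TH545.CF

universe u v

/-- No polynomial with integral coefficients, not all of them zero in `K`, vanishes at `a`: the `a j`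
are algebraically independent over the prime field. -/
def Generic {K : Type u} [Field K] (a : ℕ → K) : Prop :=
  ∀ D : MvPolynomial ℕ ℤ, MvPolynomial.map (Int.castRingHom K) D ≠ 0 →
    MvPolynomial.aeval a D ≠ 0

section translate

variable {K : Type u} [Field K]

theorem sum_coeff {r : ℕ} (q : K[X]) (hq : q.degree < r) :
    (∑ j : Fin r, C (q.coeff j) * X ^ (j : ℕ) : K[X]) = q := by
  rw [Fin.sum_univ_eq_sum_range (fun j => C (q.coeff j) * X ^ j : ℕ → K[X]) r]
  by_cases hq0 : q = 0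
  · rw [hq0]; simp
  · exact (as_sum_range_C_mul_X_pow' _ ((natDegree_lt_iff_degree_lt hq0).2 hq)).symm

theorem sh_comp (c : K) (γ : K[X]) (f : K[X][X]) :
    sh c γ (sh (-c) (C 0) f) = sh 0 (γ.comp (X + C c)) f := by
  have h : (sh c γ).comp (sh (-c) (C 0)) = sh 0 (γ.comp (X + C c)) := by
    refine ringHom_ext' (ringHom_ext' ?_ ?_) ?_
    · ext a
      simp [sh_C]
    · simp [sh_C]
    · simp [sh_X]
  exact congrArg (fun φ : K[X][X] →+* K[X][X] => φ f) h

theorem jforms_homog {J : Ideal K[X][X]} {d : ℕ} {F : MvPolynomial (Fin 3) K}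
    (hF : F ∈ jforms J d) : F.IsHomogeneous d :=
  (MvPolynomial.mem_homogeneousSubmodule _ _).1 (Submodule.mem_inf.1 hF).1

theorem finite_jforms (J : Ideal K[X][X]) (d : ℕ) : FiniteDimensional K ↥(jforms J d) := by
  have hmem : ∀ F : ↥(jforms J d), ((deh K).toLinearMap.comp (jforms J d).subtype) F ∈
      mspan K (Tset d) := by
    rintro ⟨F, hF⟩
    exact deh_mem_mspan (jforms_homog hF)
  refine FiniteDimensional.of_injective (V₂ := ↥(mspan K (Tset d)))
    (LinearMap.codRestrict (mspan K (Tset d)) ((deh K).toLinearMap.comp (jforms J d).subtype) hmem)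
    ?_
  intro F G hFG
  have h1 : deh K F.1 = deh K G.1 := congrArg Subtype.val hFG
  have h2 : deh K (F.1 - G.1) = 0 := by rw [map_sub, h1, sub_self]
  have h3 : (F.1 - G.1).IsHomogeneous d := jforms_homog ((jforms J d).sub_mem F.2 G.2)
  exact Subtype.ext (sub_eq_zero.1 (deh_eq_zero h3 h2))

/-- translation to the abscissa `0` -/
theorem exp_zero {r m : ℕ} {x0 : Fin (r + 1) → K} {S : Set ℕ} (h : Exp r m x0 S) :
    ∃ b0 : Fin r → K, Exp r m (Fin.cons 0 b0 : Fin (r + 1) → K) S := by
  obtain ⟨c0, hc0⟩ : ∃ c0 : K, c0 = x0 0 := ⟨_, rfl⟩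
  obtain ⟨a0, ha0⟩ : ∃ a0 : Fin r → K, a0 = fun j : Fin r => x0 j.succ := ⟨_, rfl⟩
  obtain ⟨γ, hγ⟩ : ∃ γ : K[X], γ = ∑ j : Fin r, C (a0 j) * X ^ (j : ℕ) := ⟨_, rfl⟩
  have hdeg : γ.degree < r := by
    rw [hγ]
    refine (degree_sum_le _ _).trans_lt ?_
    rw [Finset.sup_lt_iff (by exact WithBot.bot_lt_coe r)]
    intro j _
    refine (degree_C_mul_X_pow_le _ _).trans_lt ?_
    exact_mod_cast j.2
  have hdeg' : (γ.comp (X + C c0)).degree < r := by
    by_cases h0 : γ = 0
    · rw [h0, zero_comp, degree_zero]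
      exact WithBot.bot_lt_coe r
    · have h1 : γ.natDegree < r := (natDegree_lt_iff_degree_lt h0).2 hdeg
      refine degree_le_natDegree.trans_lt ?_
      rw [natDegree_comp, natDegree_X_add_C, mul_one]
      exact_mod_cast h1
  refine ⟨fun j => (γ.comp (X + C c0)).coeff j, exp_of_le fun d hd => ?_⟩
  have h2 := h d hd
  rw [← hc0, ← ha0] at h2
  rw [← h2]
  have hmem : ∀ F ∈ jforms (jetIdeal m (0 : K) (fun j : Fin r => (γ.comp (X + C c0)).coeff j)) d,
      (tr (-c0) 0).toLinearMap F ∈ jforms (jetIdeal m c0 a0) d := by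
    rintro F ⟨hF, hF'⟩
    refine ⟨(MvPolynomial.mem_homogeneousSubmodule _ _).2
      (tr_homog ((MvPolynomial.mem_homogeneousSubmodule _ _).1 hF)), ?_⟩
    have hF1 : deh K F ∈ jetIdeal m (0 : K) (fun j : Fin r => (γ.comp (X + C c0)).coeff j) := hF'
    show deh K (tr (-c0) 0 F) ∈ jetIdeal m c0 a0
    rw [jetIdeal_eq, sum_coeff _ hdeg', mem_cIdeal_iff] at hF1
    rw [jetIdeal_eq, ← hγ, mem_cIdeal_iff, deh_tr, sh_comp]
    exact hF1
  have hfd := finite_jforms (jetIdeal m c0 a0) d
  refine LinearMap.finrank_le_finrank_of_injective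
    (f := (tr (-c0) 0).toLinearMap.restrict hmem) ?_
  intro F G hFG
  have h1 : tr (-c0) 0 F.1 = tr (-c0) 0 G.1 := congrArg Subtype.val hFG
  have h3 := tr_tr (-c0) 0 F.1
  rw [h1, tr_tr] at h3
  exact Subtype.ext h3.symm

end translate

section transfer

/-- putting `x_0 = 0` -/
noncomputable def subst (r : ℕ) : Fin (r + 1) → MvPolynomial ℕ ℤ :=
  Fin.cons 0 (fun j : Fin r => MvPolynomial.X (j : ℕ))

theorem aeval_subst {M : Type u} [Field M] {r : ℕ} (e : ℕ → M) (D : MvPolynomial (Fin (r + 1)) ℤ) :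
    MvPolynomial.aeval e (MvPolynomial.aeval (subst r) D) =
      MvPolynomial.aeval (Fin.cons 0 (fun j : Fin r => e j) : Fin (r + 1) → M) D := by
  have h : (MvPolynomial.aeval e).comp (MvPolynomial.aeval (subst r)) =
      (MvPolynomial.aeval (Fin.cons 0 (fun j : Fin r => e j) : Fin (r + 1) → M) :
        MvPolynomial (Fin (r + 1)) ℤ →ₐ[ℤ] M) := by
    refine MvPolynomial.algHom_ext fun i => ?_
    refine Fin.cases ?_ (fun j => ?_) i
    · simp [subst]
    · simp [subst]
  exact AlgHom.congr_fun h D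

theorem map_ne_zero {σ : Type} {D : MvPolynomial σ ℤ} (hD : D ≠ 0) :
    ∃ p₀ : ℕ, ∀ (L : Type u) [Field L] (p : ℕ) [CharP L p], p = 0 ∨ p₀ < p →
      MvPolynomial.map (Int.castRingHom L) D ≠ 0 := by
  obtain ⟨α, hα⟩ := MvPolynomial.ne_zero_iff.1 hD
  refine ⟨(MvPolynomial.coeff α D).natAbs, fun L _ p _ hp h0 => ?_⟩
  have h3 := congrArg (MvPolynomial.coeff α) h0
  rw [MvPolynomial.coeff_map, MvPolynomial.coeff_zero, eq_intCast,
    CharP.intCast_eq_zero_iff L p] at h3
  rcases hp with rfl | hp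
  · rw [Nat.cast_zero, zero_dvd_iff] at h3
    exact hα h3
  · have h4 := Int.natAbs_dvd_natAbs.2 h3
    rw [Int.natAbs_natCast] at h4
    have h5 := Nat.le_of_dvd (Int.natAbs_pos.2 hα) h4
    omega

theorem ne_zero_of_aeval {K : Type u} [Field K] {σ : Type} {x : σ → K} {D : MvPolynomial σ ℤ}
    (h : MvPolynomial.aeval x D ≠ 0) : D ≠ 0 := by
  rintro rfl
  exact h (map_zero _)

/-- The expected number of forms in all degrees in `S`, at one collision over one field of
characteristic zero, passes to general collisions and to the collisions of generic germs, over all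
fields of characteristic zero or of large characteristic. -/
theorem good_of_exp {K : Type v} [Field K] {r m : ℕ} {x0 : Fin (r + 1) → K} {S : Set ℕ}
    (h : Exp r m x0 S) : ∃ p₀ : ℕ, ∀ (k : Type u) [Field k] (p : ℕ) [CharP k p], p = 0 ∨ p₀ < p →
      (∃ F : MvPolynomial (Fin (r + 1)) k, F ≠ 0 ∧
        ∀ x : Fin (r + 1) → k, MvPolynomial.eval x F ≠ 0 → Exp r m x S) ∧
      ∀ a : ℕ → k, Generic a → Exp r m (Fin.cons 0 (fun j : Fin r => a j) : Fin (r + 1) → k) S := by
  obtain ⟨D, hD, hD'⟩ := exp_transfer.{v, u} h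
  obtain ⟨b0, hb0⟩ := exp_zero h
  obtain ⟨E, hE, hE'⟩ := exp_transfer.{v, u} hb0
  obtain ⟨p₁, hp₁⟩ := map_ne_zero.{u} (ne_zero_of_aeval hD)
  have hE2 : MvPolynomial.aeval (subst r) E ≠ 0 := by
    intro h0
    apply hE
    obtain ⟨e, he⟩ : ∃ e : ℕ → K, (fun j : Fin r => e j) = b0 :=
      ⟨fun n => if h : n < r then b0 ⟨n, h⟩ else 0, by
        funext j
        simp⟩
    rw [← he, ← aeval_subst e E, h0, map_zero]
  obtain ⟨p₂, hp₂⟩ := map_ne_zero.{u} hE2
  refine ⟨max p₁ p₂, fun k _ p _ hp => ⟨?_, fun a ha => ?_⟩⟩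
  · refine ⟨MvPolynomial.map (Int.castRingHom k) D, hp₁ k p (hp.imp_right fun h => by omega),
      fun x hx => hD' k x ?_⟩
    have h4 : MvPolynomial.eval x (MvPolynomial.map (Int.castRingHom k) D) =
        MvPolynomial.aeval x D := by
      rw [MvPolynomial.eval_map, MvPolynomial.aeval_def]
      congr 1
    rwa [h4] at hx
  · refine hE' k _ ?_
    rw [← aeval_subst a E]
    exact ha _ (hp₂ k p (hp.imp_right fun h => by omega))

/-- The same for the fields of the same characteristic. -/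
theorem germ_of_exp {K : Type v} [Field K] (p : ℕ) [CharP K p] {r m : ℕ} {x0 : Fin (r + 1) → K}
    {S : Set ℕ} (h : Exp r m x0 S) {L : Type u} [Field L] [CharP L p] {a : ℕ → L}
    (ha : Generic a) : Exp r m (Fin.cons 0 (fun j : Fin r => a j) : Fin (r + 1) → L) S := by
  obtain ⟨b0, hb0⟩ := exp_zero h
  obtain ⟨E, hE, hE'⟩ := exp_transfer.{v, u} hb0
  refine hE' L _ ?_
  rw [← aeval_subst a E]
  refine ha _ fun h1 => hE ?_
  have h2 : MvPolynomial.map (Int.castRingHom K) (MvPolynomial.aeval (subst r) E) = 0 := by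
    ext α
    have h3 := congrArg (MvPolynomial.coeff α) h1
    rw [MvPolynomial.coeff_map, MvPolynomial.coeff_zero, eq_intCast,
      CharP.intCast_eq_zero_iff L p] at h3
    rw [MvPolynomial.coeff_map, MvPolynomial.coeff_zero, eq_intCast,
      CharP.intCast_eq_zero_iff K p]
    exact h3
  obtain ⟨e, he⟩ : ∃ e : ℕ → K, (fun j : Fin r => e j) = b0 :=
    ⟨fun n => if h : n < r then b0 ⟨n, h⟩ else 0, by
      funext j
      simp⟩
  have h4 : MvPolynomial.aeval e (MvPolynomial.aeval (subst r) E) =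
      MvPolynomial.eval e (MvPolynomial.map (Int.castRingHom K)
        (MvPolynomial.aeval (subst r) E)) := by
    rw [MvPolynomial.eval_map, MvPolynomial.aeval_def]
    congr 1
  rw [← he, ← aeval_subst e E, h4, h2, map_zero]

theorem exists_eval_ne {K : Type v} [Field K] [Infinite K] {n : ℕ} {F : MvPolynomial (Fin n) K}
    (hF : F ≠ 0) : ∃ x : Fin n → K, MvPolynomial.eval x F ≠ 0 := by
  by_contra hcon
  push Not at hcon
  exact hF (MvPolynomial.funext fun x => by rw [hcon x, map_zero])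

end transfer

end Pool.Agent.H937.OG
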